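import Pool.Agent.helper35.DR.SpecP

set_option autoImplicit false

namespace Pool.Agent.DR

open Pool.Agent.helper58.DC Pool.Agent.DI

theorem PEQ_fs {Y : Type} (S : Finset Y) (P : Y → Prop) (hS : ∀ y, y ∈ S ↔ P y) (Q : Y → Prop)
    [DecidablePred Q] (f : Y → ℤ) :
    ∑ᶠ x ∈ {x : Y | P x ∧ Q x}, f x = ∑ x ∈ S, if Q x then f x else 0 := by
  have h : {x : Y | P x ∧ Q x} = ↑(S.filter Q) := by
    ext x
    simp [hS]
  rw [h, finsum_mem_coe_finset, Finset.sum_filter]

theorem PEQ_fs1 {Y : Type} (S : Finset Y) (P : Y → Prop) (hS : ∀ y, y ∈ S ↔ P y)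
    (f : Y → ℤ) :
    ∑ᶠ x ∈ {x : Y | P x}, f x = ∑ x ∈ S, f x := by
  have h : {x : Y | P x} = ↑S := by
    ext x
    simp [hS]
  rw [h, finsum_mem_coe_finset]

open Classical in
/-- The abstract form of the computation. -/
theorem PEQ_abs {Y B : Type} (S : Finset Y) (w d : Y → ℤ) (V : Y → B)
    (top : B) (C : Finset B) (hC : top ∉ C) (J : Y → Y → B) (r g : Y → Y → ℤ) (m D : ℤ)
    (h0 : ∑ x ∈ S, ∑ y ∈ S, r x y = 0)
    (hr : ∀ x ∈ S, ∀ y ∈ S, r x y = (if V x = top ∧ V y = top then m * (w x * w y * g x y) else 0) +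
      if J x y ∈ C then (if d x + d y = D then w x * w y else 0) else 0)
    (hJ : ∀ x ∈ S, ∀ y ∈ S, ∀ c ∈ C, J x y = c ↔ ((V x = c ∨ V x = top) ∧ (V y = c ∨ V y = top)) ∧
      ¬ (V x = top ∧ V y = top))
    (hw : ∀ c ∈ C, ∀ e : ℤ, (∑ x ∈ S, if d x = e ∧ V x = c then w x else 0) +
      (∑ x ∈ S, if d x = e ∧ V x = top then w x else 0) = 0) :
    m * ∑ x ∈ S, (if V x = top then ∑ y ∈ S, (if V y = top then w x * w y * g x y else 0) else 0) =
      C.card * ∑ x ∈ S, (if V x = top then ∑ y ∈ S, (if V y = top ∧ d x + d y = D then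
        w x * w y else 0) else 0) := by
  have h1 : ∀ x ∈ S, ∀ y ∈ S, (if J x y ∈ C then (if d x + d y = D then w x * w y else 0) else 0) =
      ∑ c ∈ C, (if J x y = c then (if d x + d y = D then w x * w y else 0) else 0) := by
    intro x _ y _
    rw [Finset.sum_ite_eq]
  have h2 : ∀ c ∈ C, ∑ x ∈ S, ∑ y ∈ S,
      (if J x y = c then (if d x + d y = D then w x * w y else 0) else 0) =
      - ∑ x ∈ S, (if V x = top then ∑ y ∈ S, (if V y = top ∧ d x + d y = D then
        w x * w y else 0) else 0) := by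
    intro c hc
    have hct : c ≠ top := fun h => hC (h ▸ hc)
    rw [eq_neg_iff_add_eq_zero, ← Finset.sum_add_distrib]
    have h3 : ∀ x ∈ S, (∑ y ∈ S, (if J x y = c then (if d x + d y = D then w x * w y else 0) else 0)) +
        (if V x = top then ∑ y ∈ S, (if V y = top ∧ d x + d y = D then w x * w y else 0) else 0) =
        if (V x = c ∨ V x = top) then w x * ((∑ y ∈ S, if d y = D - d x ∧ V y = c then w y else 0) +
          ∑ y ∈ S, if d y = D - d x ∧ V y = top then w y else 0) else 0 := by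
      intro x hx
      have h4 : (if V x = top then ∑ y ∈ S, (if V y = top ∧ d x + d y = D then w x * w y else 0)
          else 0) = ∑ y ∈ S, (if V x = top then (if V y = top ∧ d x + d y = D then w x * w y else 0)
          else 0) := by
        split_ifs <;> simp
      have h5 : (if (V x = c ∨ V x = top) then w x * ((∑ y ∈ S, if d y = D - d x ∧ V y = c then w y else 0) +
          ∑ y ∈ S, if d y = D - d x ∧ V y = top then w y else 0) else 0) =
          ∑ y ∈ S, (if (V x = c ∨ V x = top) then w x * ((if d y = D - d x ∧ V y = c then w y else 0) +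
            if d y = D - d x ∧ V y = top then w y else 0) else 0) := by
        split_ifs with h
        · rw [← Finset.sum_add_distrib, Finset.mul_sum]
        · simp
      rw [h4, h5, ← Finset.sum_add_distrib]
      refine Finset.sum_congr rfl fun y hy => ?_
      have hj := hJ x hx y hy c hc
      have hd : d y = D - d x ↔ d x + d y = D := by
        constructor <;> intro h <;> linarith
      by_cases hD : d x + d y = D
      · have hD' := hd.2 hD
        by_cases hx1 : V x = top
        · have hx2 : V x ≠ c := fun h => hct (h.symm.trans hx1)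
          by_cases hy1 : V y = top
          · have hy2 : V y ≠ c := fun h => hct (h.symm.trans hy1)
            have hj' : ¬ J x y = c := fun h => (hj.1 h).2 ⟨hx1, hy1⟩
            rw [if_neg hj', if_pos hx1, if_pos ⟨hy1, hD⟩, if_pos (Or.inr hx1), if_neg (fun h => hy2 h.2),
              if_pos ⟨hD', hy1⟩]
            ring
          · by_cases hy2 : V y = c
            · have hj' : J x y = c := hj.2 ⟨⟨Or.inr hx1, Or.inl hy2⟩, fun h => hy1 h.2⟩
              rw [if_pos hj', if_pos hD, if_pos hx1, if_neg (fun h => hy1 h.1), if_pos (Or.inr hx1),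
                if_pos ⟨hD', hy2⟩, if_neg (fun h => hy1 h.2)]
              ring
            · have hj' : ¬ J x y = c := fun h => (hj.1 h).1.2.elim hy2 hy1
              rw [if_neg hj', if_pos hx1, if_neg (fun h => hy1 h.1), if_pos (Or.inr hx1),
                if_neg (fun h => hy2 h.2), if_neg (fun h => hy1 h.2)]
              ring
        · by_cases hx2 : V x = c
          · by_cases hy1 : V y = top
            · have hy2 : V y ≠ c := fun h => hct (h.symm.trans hy1)
              have hj' : J x y = c := hj.2 ⟨⟨Or.inl hx2, Or.inr hy1⟩, fun h => hx1 h.1⟩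
              rw [if_pos hj', if_pos hD, if_neg hx1, if_pos (Or.inl hx2),
                if_neg (fun h => hy2 h.2), if_pos ⟨hD', hy1⟩]
              ring
            · by_cases hy2 : V y = c
              · have hj' : J x y = c := hj.2 ⟨⟨Or.inl hx2, Or.inl hy2⟩, fun h => hx1 h.1⟩
                rw [if_pos hj', if_pos hD, if_neg hx1, if_pos (Or.inl hx2),
                  if_pos ⟨hD', hy2⟩, if_neg (fun h => hy1 h.2)]
                ring
              · have hj' : ¬ J x y = c := fun h => (hj.1 h).1.2.elim hy2 hy1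
                rw [if_neg hj', if_neg hx1, if_pos (Or.inl hx2),
                  if_neg (fun h => hy2 h.2), if_neg (fun h => hy1 h.2)]
                ring
          · have hj' : ¬ J x y = c := fun h => (hj.1 h).1.1.elim hx2 hx1
            rw [if_neg hj', if_neg hx1, if_neg (fun h => h.elim hx2 hx1)]
            ring
      · have hD' : ¬ d y = D - d x := fun h => hD (hd.1 h)
        simp [hD, hD']
    rw [Finset.sum_congr rfl h3]
    refine Finset.sum_eq_zero fun x _ => ?_
    rw [hw c hc, mul_zero, ite_self]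
  have h6 : ∑ x ∈ S, ∑ y ∈ S, r x y =
      m * ∑ x ∈ S, (if V x = top then ∑ y ∈ S, (if V y = top then w x * w y * g x y else 0) else 0) +
      ∑ c ∈ C, ∑ x ∈ S, ∑ y ∈ S,
      (if J x y = c then (if d x + d y = D then w x * w y else 0) else 0) := by
    have h7 : ∀ x ∈ S, ∑ y ∈ S, r x y =
        m * (if V x = top then ∑ y ∈ S, (if V y = top then w x * w y * g x y else 0) else 0) +
        ∑ c ∈ C, ∑ y ∈ S, (if J x y = c then (if d x + d y = D then w x * w y else 0) else 0) := by
      intro x hx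
      rw [Finset.sum_comm]
      have h8 : m * (if V x = top then ∑ y ∈ S, (if V y = top then w x * w y * g x y else 0) else 0) =
          ∑ y ∈ S, (if V x = top ∧ V y = top then m * (w x * w y * g x y) else 0) := by
        by_cases hx1 : V x = top
        · rw [if_pos hx1, Finset.mul_sum]
          refine Finset.sum_congr rfl fun y _ => ?_
          by_cases hy1 : V y = top
          · rw [if_pos hy1, if_pos ⟨hx1, hy1⟩]
          · rw [if_neg hy1, if_neg (fun h => hy1 h.2), mul_zero]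
        · rw [if_neg hx1, mul_zero]
          refine (Finset.sum_eq_zero fun y _ => ?_).symm
          rw [if_neg (fun h => hx1 h.1)]
      rw [h8, ← Finset.sum_add_distrib]
      refine Finset.sum_congr rfl fun y hy => ?_
      rw [hr x hx y hy, h1 x hx y hy]
    rw [Finset.sum_congr rfl h7, Finset.sum_add_distrib, ← Finset.mul_sum, Finset.sum_comm]
  rw [h0, Finset.sum_congr rfl h2, Finset.sum_const, nsmul_eq_mul] at h6
  linarith

theorem PEQ (hIF : IF_stmt) (hPRL : PRL_stmt) (hPFU : PFU_stmt) (hPCO : PCO_stmt) (hPAL : PAL_stmt)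
    (hPFM : PFM_stmt) (hPMP : PMP_stmt) (hRLA : RLA_stmt) (hGVM : GVM_stmt) : PEQ_stmt := by
  classical
  intro G E A _ _ _ _ _ _ X p _ M hM hpM hop χ hχ hst N _ hN hinv halt
  obtain ⟨a, ha, hfu⟩ := hPFU G E A X p M hop χ hχ
  refine ⟨a, ha, fun D hD => ?_⟩
  obtain ⟨hF1, hF2, hF3⟩ := hPFM G E A X p M χ hχ hst
  have hfinKE : Finite (KE X (diag A)) := (hPMP G E A X (fun _ => ⊤)).2.2
  have hrel : Rel (X2 X) p M (tens (fam χ)) N D :=
    hRLA (TT → G) (KE X (diag A)) A (X2 X) p M hM hpM (hF3 hop) (tens (fam χ)) hF1 hF2 N hN hinv D hD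
  have hprl := hPRL G E A X p M hop χ hχ N D hrel
  have hfinP : {x : Finset (Subgroup G) × (G → ℂ) | IsPair p M χ x}.Finite := by
    have h1 : (⋃ C : Finset (Subgroup G), (fun ψ : G → ℂ => (C, ψ)) '' IrrOn (nrm C)).Finite :=
      Set.finite_iUnion fun C => (hIF G (nrm C)).1.image _
    refine h1.subset ?_
    rintro ⟨C, ψ⟩ hx
    exact Set.mem_iUnion.2 ⟨C, ψ, hx.2.1, rfl⟩
  obtain ⟨S, hS⟩ : ∃ S : Finset (Finset (Subgroup G) × (G → ℂ)), ∀ x, x ∈ S ↔ IsPair p M χ x :=
    ⟨hfinP.toFinset, fun x => by rw [Set.Finite.mem_toFinset]; rfl⟩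
  obtain ⟨hV1, hV2, hV3⟩ := hGVM A N hN
  let _ : Fintype (Subgroup A) := Fintype.ofFinite _
  have hcard : (ncpl N : ℤ) = ((Finset.univ.filter (fun V : Subgroup A => IsCpl N V)).card : ℤ) := by
    rw [ncpl, Nat.card_eq_fintype_card, Fintype.card_subtype]
  have hpr : ∀ (Q : Finset (Subgroup G) × (G → ℂ) → Prop) (f : Finset (Subgroup G) × (G → ℂ) → ℤ),
      ∑ᶠ x ∈ {x : Finset (Subgroup G) × (G → ℂ) | IsPair p M χ x ∧ Q x}, f x =
      ∑ x ∈ S, if Q x then f x else 0 := fun Q f => PEQ_fs S _ hS Q f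
  have hpr1 : ∀ (f : Finset (Subgroup G) × (G → ℂ) → ℤ),
      ∑ᶠ x ∈ {x : Finset (Subgroup G) × (G → ℂ) | IsPair p M χ x}, f x =
      ∑ x ∈ S, f x := fun f => PEQ_fs1 S _ hS f
  rw [hcard]
  simp only [hpr]
  simp only [hpr1] at hprl
  refine Eq.trans ?_ ((PEQ_abs S (fun x => (-1) ^ (x.1.card + 1) * (Nat.card (nrm x.1) : ℤ)) (dfc p) (Vx X) ⊤
    (Finset.univ.filter (fun V : Subgroup A => IsCpl N V)) ?_ (fun x y => Vx X x ⊓ Vx X y) _
    (fun x y => (GN N (a x * (a y)⁻¹)⁻¹
      (fun k => (padicValNat p k : ℤ) = dfc p x + dfc p y + padicValNat p (Nat.card N) - D) : ℤ))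
    (Nat.card N : ℤ) D hprl ?_ ?_ ?_).trans ?_)
  · rfl
  · intro h
    exact (hV2 ⊤ (Finset.mem_filter.1 h).2).1 rfl
  · intro x hx y hy
    have hx' := (hS x).1 hx
    have hy' := (hS y).1 hy
    simp only [Finset.mem_filter, Finset.mem_univ, true_and]
    by_cases hb : Vx X x = ⊤ ∧ Vx X y = ⊤
    · have h1 : ¬ IsCpl N (Vx X x ⊓ Vx X y) := by
        intro h
        exact (hV2 _ h).1 (by rw [hb.1, hb.2, inf_top_eq])
      have h2 : (Vx X x ⊓ Vx X y) ⊔ N = ⊤ := by rw [hb.1, hb.2, inf_top_eq, top_sup_eq]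
      rw [if_pos hb, if_neg h1, if_pos h2, hfu x y hx' hy' hb.1 hb.2 N inferInstance D]
      ring
    · rw [if_neg hb]
      by_cases h2 : (Vx X x ⊓ Vx X y) ⊔ N = ⊤
      · rcases hV1 _ h2 with h3 | h3
        · exact absurd (inf_eq_top_iff.1 h3) hb
        · rw [if_pos h2, if_pos h3, hPCO G E A X p M hop χ hχ x y hx' hy' N h3.1 D]
          split_ifs <;> ring
      · have h3 : ¬ IsCpl N (Vx X x ⊓ Vx X y) := fun h => h2 h.2
        rw [if_neg h2, if_neg h3]
        ring
  · intro x _ y _ V hV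
    have hV' := (Finset.mem_filter.1 hV).2
    obtain ⟨hVt, hVm⟩ := hV2 V hV'
    constructor
    · intro h
      have h1 : V ≤ Vx X x := h ▸ inf_le_left
      have h2 : V ≤ Vx X y := h ▸ inf_le_right
      refine ⟨⟨hVm _ h1, hVm _ h2⟩, fun hb => hVt ?_⟩
      rw [← h]
      exact inf_eq_top_iff.2 hb
    · rintro ⟨⟨h1 | h1, h2 | h2⟩, h3⟩
      · show Vx X x ⊓ Vx X y = V
        rw [h1, h2, inf_idem]
      · show Vx X x ⊓ Vx X y = V
        rw [h1, h2, inf_top_eq]
      · show Vx X x ⊓ Vx X y = V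
        rw [h1, h2, top_inf_eq]
      · exact absurd ⟨h1, h2⟩ h3
  · intro V hV e
    have hV' := (Finset.mem_filter.1 hV).2
    have h1 := hPAL G E A X p M χ hχ e V
    have h2 := hPAL G E A X p M χ hχ e ⊤
    rw [hpr] at h1 h2
    have h3 : ∀ c : Subgroup A, (∑ x ∈ S, if dfc p x = e ∧ Vx X x = c then
        (-1) ^ (x.1.card + 1) * (Nat.card (nrm x.1) : ℤ) else 0) =
        ∑ x ∈ S, @ite ℤ (dfc p x = e ∧ Vx X x = c) (Classical.propDecidable _)
          ((-1) ^ (x.1.card + 1) * (Nat.card (nrm x.1) : ℤ)) 0 := fun c => by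
      congr! 
    change (∑ x ∈ S, if dfc p x = e ∧ Vx X x = V then
        (-1) ^ (x.1.card + 1) * (Nat.card (nrm x.1) : ℤ) else 0) + (∑ x ∈ S, if dfc p x = e ∧ Vx X x = ⊤ then
        (-1) ^ (x.1.card + 1) * (Nat.card (nrm x.1) : ℤ) else 0) = 0
    rw [h3, h3, ← h1, ← h2, ← mul_add, halt V hV' e, mul_zero]
  · congr!

end Pool.Agent.DR
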